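import Pool.Agent.helper90.KS.Spec

/-! # Module ks:RT -/

set_option autoImplicit false

open scoped BigOperators

namespace Pool.Agent.KS

open Pool.Agent.helper23.TH

noncomputable section

open Classical

theorem RT_inj {V ι : Type} [Fintype ι] [DecidableEq ι] (s : ℕ) (Q : Finset V) (e : Fin s → ι)
    (he : Function.Injective e) (T : Finset (Fin s → V)) :
    ((Fintype.piFinset (fun _ : ι => Q)).filter (fun h => (fun i => h (e i)) ∈ T)).card ≤
      T.card * Q.card ^ (Fintype.card ι - s) := by
  have h1 : ((Fintype.piFinset (fun _ : ι => Q)).filter (fun h => (fun i => h (e i)) ∈ T)).card ≤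
      (T ×ˢ Fintype.piFinset (fun _ : {k : ι // k ∉ Set.range e} => Q)).card := by
    apply Finset.card_le_card_of_injOn
      (fun h => ((fun i => h (e i)), (fun k : {k : ι // k ∉ Set.range e} => h k.1)))
    · intro h hh
      have hh' := Finset.mem_filter.1 (Finset.mem_coe.1 hh)
      simp only [Finset.coe_product, Set.mem_prod, Finset.mem_coe]
      refine ⟨hh'.2, ?_⟩
      rw [Fintype.mem_piFinset]
      intro k
      exact Fintype.mem_piFinset.1 hh'.1 k.1
    · intro h _ h' _ heq
      funext k
      by_cases hk : k ∈ Set.range e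
      · obtain ⟨i, rfl⟩ := hk
        exact congrFun (Prod.ext_iff.1 heq).1 i
      · exact congrFun (Prod.ext_iff.1 heq).2 ⟨k, hk⟩
  rw [Finset.card_product, Fintype.card_piFinset, Finset.prod_const, Finset.card_univ] at h1
  have h2 : Fintype.card {k : ι // k ∉ Set.range e} = Fintype.card ι - s := by
    have h3 := Fintype.card_subtype_compl (fun k : ι => k ∈ Set.range e)
    rw [h3]
    congr 1
    have h4 := Set.card_range_of_injective he
    rw [Fintype.card_fin] at h4
    exact h4
  rw [h2] at h1
  exact h1

theorem RT_noninj {V ι : Type} [Fintype ι] [DecidableEq ι] (Q : Finset V) (i j : ι) (hij : i ≠ j) :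
    ((Fintype.piFinset (fun _ : ι => Q)).filter (fun h => h i = h j)).card ≤
      Q.card ^ (Fintype.card ι - 1) := by
  have h1 : ((Fintype.piFinset (fun _ : ι => Q)).filter (fun h => h i = h j)).card ≤
      (Fintype.piFinset (fun _ : {k : ι // k ≠ j} => Q)).card := by
    apply Finset.card_le_card_of_injOn (fun h => (fun k : {k : ι // k ≠ j} => h k.1))
    · intro h hh
      have hh' := Finset.mem_filter.1 (Finset.mem_coe.1 hh)
      rw [Finset.mem_coe, Fintype.mem_piFinset]
      intro k
      exact Fintype.mem_piFinset.1 hh'.1 k.1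
    · intro h hh h' hh' heq
      have e1 := (Finset.mem_filter.1 (Finset.mem_coe.1 hh)).2
      have e2 := (Finset.mem_filter.1 (Finset.mem_coe.1 hh')).2
      funext k
      by_cases hk : k = j
      · rw [hk, ← e1, ← e2]
        exact congrFun heq ⟨i, hij⟩
      · exact congrFun heq ⟨k, hk⟩
  rw [Fintype.card_piFinset, Finset.prod_const, Finset.card_univ] at h1
  have h2 : Fintype.card {k : ι // k ≠ j} = Fintype.card ι - 1 := by
    have h3 := Fintype.card_subtype_compl (fun k : ι => k = j)
    rw [Fintype.card_subtype_eq] at h3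
    exact h3
  rw [h2] at h1
  exact h1

theorem RT (hRA : RA_stmt) : RT_stmt := by
  intro s a hs
  obtain ⟨R0, hR0⟩ := hRA a s
  refine ⟨max R0 (max s 1), by simp, ?_⟩
  set R := max R0 (max s 1) with hR
  have hR1 : 1 ≤ R := by simp [hR]
  have hRs : s ≤ R := by simp [hR]
  have hRR : R0 ≤ R := by simp [hR]
  intro V _ Q g hg hno
  set x := Q.card with hx
  set T := (Finset.univ.filter fun u : Fin s → V => (∀ i, u i ∈ Q) ∧
    ∀ i j, i ≠ j → u i ≠ u j ∧ ¬ g (u i) (u j)) with hT
  obtain ⟨k, rfl⟩ : ∃ k, s = k + 1 := ⟨s - 1, by omega⟩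
  simp only [Nat.add_sub_cancel]
  rcases lt_or_ge x R with hxR | hxR
  · have h1 : x ^ (k + 1) ≤ R ^ 2 * x ^ k := by
      calc x ^ (k + 1) = x * x ^ k := by ring
        _ ≤ R ^ 2 * x ^ k := by
          apply Nat.mul_le_mul_right
          nlinarith
    omega
  · have hx0 : 0 < x := by omega
    have hcard : (Fintype.piFinset (fun _ : Fin R => Q)).card = x ^ R := by
      rw [Fintype.card_piFinset, Finset.prod_const, Finset.card_univ, Fintype.card_fin]
    have hcover : Fintype.piFinset (fun _ : Fin R => Q) ⊆
        ((Finset.univ : Finset (Fin (k + 1) → Fin R)).filter Function.Injective).biUnion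
          (fun e => (Fintype.piFinset (fun _ : Fin R => Q)).filter
            (fun h => (fun i => h (e i)) ∈ T)) ∪
        ((Finset.univ : Finset (Fin R × Fin R)).filter (fun p => p.1 ≠ p.2)).biUnion
          (fun p => (Fintype.piFinset (fun _ : Fin R => Q)).filter (fun h => h p.1 = h p.2)) := by
      intro h hh
      rw [Finset.mem_union]
      by_cases hinj : Function.Injective h
      · left
        have hc : R0 ≤ (Finset.univ.image h).card := by
          rw [Finset.card_image_of_injective _ hinj, Finset.card_univ, Fintype.card_fin]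
          exact hRR
        have hQ : ∀ y ∈ Finset.univ.image h, y ∈ Q := by
          intro y hy
          obtain ⟨i, -, rfl⟩ := Finset.mem_image.1 hy
          exact Fintype.mem_piFinset.1 hh i
        rcases hR0 V (Finset.univ.image h) g hg hc with ⟨f, hf1, hf2, hf3⟩ | ⟨f, hf1, hf2, hf3⟩
        · exact absurd ⟨f, hf1, fun i => hQ _ (hf2 i), hf3⟩ hno
        · have hch : ∀ i, ∃ m, h m = f i := by
            intro i
            obtain ⟨m, -, hm⟩ := Finset.mem_image.1 (hf2 i)
            exact ⟨m, hm⟩
          choose e he using hch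
          have heinj : Function.Injective e := by
            intro i j hij
            apply hf1
            rw [← he i, ← he j, hij]
          rw [Finset.mem_biUnion]
          refine ⟨e, Finset.mem_filter.2 ⟨Finset.mem_univ _, heinj⟩, Finset.mem_filter.2 ⟨hh, ?_⟩⟩
          rw [hT, Finset.mem_filter]
          refine ⟨Finset.mem_univ _, ?_, ?_⟩
          · intro i
            exact Fintype.mem_piFinset.1 hh _
          · intro i j hij
            simp only [he]
            exact ⟨fun h0 => hij (hf1 h0), hf3 i j hij⟩
      · right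
        rw [Finset.mem_biUnion]
        rw [Function.not_injective_iff] at hinj
        obtain ⟨i, j, h1, h2⟩ := hinj
        exact ⟨(i, j), Finset.mem_filter.2 ⟨Finset.mem_univ _, h2⟩,
          Finset.mem_filter.2 ⟨hh, h1⟩⟩
    have hle := Finset.card_le_card hcover
    rw [hcard] at hle
    have hle2 := hle.trans (Finset.card_union_le _ _)
    have hA : (((Finset.univ : Finset (Fin (k + 1) → Fin R)).filter Function.Injective).biUnion
          (fun e => (Fintype.piFinset (fun _ : Fin R => Q)).filter
            (fun h => (fun i => h (e i)) ∈ T))).card ≤ R ^ (k + 1) * (T.card * x ^ (R - (k + 1))) := by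
      refine (Finset.card_biUnion_le_card_mul _ _ (T.card * x ^ (R - (k + 1))) ?_).trans ?_
      · intro e he
        have := RT_inj (k + 1) Q e (Finset.mem_filter.1 he).2 T
        rw [Fintype.card_fin] at this
        exact this
      · apply Nat.mul_le_mul_right
        refine (Finset.card_filter_le _ _).trans ?_
        rw [Finset.card_univ, Fintype.card_fun, Fintype.card_fin, Fintype.card_fin]
    have hB : (((Finset.univ : Finset (Fin R × Fin R)).filter (fun p => p.1 ≠ p.2)).biUnion
          (fun p => (Fintype.piFinset (fun _ : Fin R => Q)).filter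
            (fun h => h p.1 = h p.2))).card ≤ R ^ 2 * x ^ (R - 1) := by
      refine (Finset.card_biUnion_le_card_mul _ _ (x ^ (R - 1)) ?_).trans ?_
      · intro p hp
        have := RT_noninj Q p.1 p.2 (Finset.mem_filter.1 hp).2
        rw [Fintype.card_fin] at this
        exact this
      · apply Nat.mul_le_mul_right
        refine (Finset.card_filter_le _ _).trans ?_
        rw [Finset.card_univ, Fintype.card_prod, Fintype.card_fin, sq]
    have hfin : x ^ R ≤ R ^ (k + 1) * (T.card * x ^ (R - (k + 1))) + R ^ 2 * x ^ (R - 1) :=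
      hle2.trans (Nat.add_le_add hA hB)
    obtain ⟨d, hd⟩ : ∃ d, R = d + (k + 1) := ⟨R - (k + 1), by omega⟩
    have e1 : R - (k + 1) = d := by omega
    have e2 : R - 1 = d + k := by omega
    have e3 : x ^ R = x ^ (k + 1) * x ^ d := by rw [← pow_add]; congr 1; omega
    rw [e1, e2, e3, pow_add x d k] at hfin
    have hxd : 0 < x ^ d := pow_pos hx0 d
    have hgoal : x ^ (k + 1) * x ^ d ≤ (R ^ (k + 1) * T.card + R ^ 2 * x ^ k) * x ^ d := by
      calc x ^ (k + 1) * x ^ d ≤ R ^ (k + 1) * (T.card * x ^ d) + R ^ 2 * (x ^ d * x ^ k) := hfin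
        _ = (R ^ (k + 1) * T.card + R ^ 2 * x ^ k) * x ^ d := by ring
    exact Nat.le_of_mul_le_mul_right hgoal hxd

end

end Pool.Agent.KS
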